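import Mathlib
import Pool.Agent.helper68.AM.Spec

set_option autoImplicit false

namespace AM

open Pool.Agent.helper72.Sq Finset

theorem MP_abs_mu (d : ℕ) : |mu d| ≤ 1 := by
  unfold mu
  have h := ArithmeticFunction.abs_moebius_le_one (n := d)
  exact_mod_cast h

theorem MP_ee_norm (t : ℝ) : ‖ee t‖ = 1 := by
  unfold ee
  exact Complex.norm_exp_ofReal_mul_I _

theorem MP_ee_add (a b : ℝ) : ee (a + b) = ee a * ee b := by
  unfold ee
  rw [← Complex.exp_add]
  congr 1
  push_cast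
  ring

theorem MP_ee_im (t : ℝ) : (ee t).im = Real.sin (2 * Real.pi * t) := by
  unfold ee
  exact Complex.exp_ofReal_mul_I_im _

theorem MP_im (N1 N2 : ℕ) (X c : ℝ) (h : ℕ) :
    |∑ d ∈ Ioc N1 N2, mu d * Real.sin (2 * Real.pi * h * (X / d - c))| ≤
      ‖∑ n ∈ Ioc N1 N2, ((mu n : ℝ) : ℂ) * ee ((h * X) / n)‖ := by
  have key : ∀ d ∈ Ioc N1 N2, mu d * Real.sin (2 * Real.pi * h * (X / d - c)) =
      ((((mu d : ℝ) : ℂ) * ee ((h * X) / d)) * ee (-(h * c))).im := by
    intro d _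
    have e : (((mu d : ℝ) : ℂ) * ee ((h * X) / d)) * ee (-(h * c)) =
        ((mu d : ℝ) : ℂ) * ee ((h * X) / d + -(h * c)) := by
      rw [mul_assoc, ← MP_ee_add]
    rw [e, Complex.im_ofReal_mul, MP_ee_im]
    congr 2
    ring
  rw [Finset.sum_congr rfl key, ← Complex.im_sum, ← Finset.sum_mul]
  refine (Complex.abs_im_le_norm _).trans ?_
  rw [norm_mul, MP_ee_norm, mul_one]

theorem MP_harm (j : ℕ) (hj : 1 ≤ j) : ∑ h ∈ Icc 1 j, 1 / (Real.pi * h) ≤ 21 * (j : ℝ) ^ ((1 / 20 : ℝ)) := by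
  have hj' : (1 : ℝ) ≤ j := by exact_mod_cast hj
  have h1 : ∑ h ∈ Icc 1 j, 1 / (Real.pi * h) ≤ ∑ h ∈ Icc 1 j, ((h : ℝ))⁻¹ := by
    apply Finset.sum_le_sum
    intro h hh
    have hh1 : (1 : ℝ) ≤ h := by exact_mod_cast (Finset.mem_Icc.1 hh).1
    rw [one_div]
    apply inv_anti₀ (by linarith)
    nlinarith [Real.pi_gt_three]
  have h2 : ∑ h ∈ Icc 1 j, ((h : ℝ))⁻¹ ≤ 1 + Real.log j := by
    have := harmonic_le_one_add_log j
    rw [harmonic_eq_sum_Icc] at this
    push_cast at this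
    exact this
  have h3 : Real.log j ≤ (j : ℝ) ^ ((1 / 20 : ℝ)) / (1 / 20) :=
    Real.log_le_rpow_div (by linarith) (by norm_num)
  have h4 : (1 : ℝ) ≤ (j : ℝ) ^ ((1 / 20 : ℝ)) := Real.one_le_rpow hj' (by norm_num)
  calc _ ≤ _ := h1
    _ ≤ _ := h2
    _ ≤ _ := by linarith

theorem MP (hMU : MU_stmt) (hFS : FS_stmt) (hNI : NI_stmt) : MP_stmt := by
  obtain ⟨CM, hCM, hMU⟩ := hMU
  obtain ⟨CF, hCF, hFS⟩ := hFS
  refine ⟨21 * CM + 23 * CF, by positivity, 4, ?_⟩
  intro j hj4 D X c N1 N2 hD hX hDX hXD hN1 hN2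
  have hj1 : 1 ≤ j := by omega
  have hj4' : (4 : ℝ) ≤ j := by exact_mod_cast hj4
  have hjr : (1 : ℝ) ≤ j := by linarith
  have hjpos : (0 : ℝ) < j := by linarith
  have hj2 : (j : ℝ) ≤ 2 ^ j := by exact_mod_cast (Nat.lt_two_pow_self (n := j)).le
  have h2j1 : (1 : ℝ) ≤ 2 ^ j := one_le_pow₀ (by norm_num)
  have hD1 : (1 : ℝ) ≤ D := le_trans (one_le_pow₀ (by norm_num)) hD
  have hDpos : (0 : ℝ) < D := by linarith
  have hDX' : D ≤ X := by
    have h1 : D ^ 2 ≤ X ^ 2 := by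
      refine le_trans ?_ hDX
      nlinarith [sq_nonneg D]
    nlinarith [sq_nonneg D, sq_nonneg X]
  -- the two parts
  set S : ℕ → ℝ := fun d => ∑ h ∈ Icc 1 j, Real.sin (2 * Real.pi * h * (X / d - c)) / (Real.pi * h) with hS
  set g : ℕ → ℝ := fun d => ps (X / d - c) + S d with hg
  have hsplit : ∑ d ∈ Ioc N1 N2, mu d * ps (X / d - c) =
      ∑ d ∈ Ioc N1 N2, mu d * g d -
        ∑ h ∈ Icc 1 j, 1 / (Real.pi * h) *
          ∑ d ∈ Ioc N1 N2, mu d * Real.sin (2 * Real.pi * h * (X / d - c)) := by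
    have e1 : ∑ h ∈ Icc 1 j, 1 / (Real.pi * h) *
          ∑ d ∈ Ioc N1 N2, mu d * Real.sin (2 * Real.pi * h * (X / d - c)) =
        ∑ d ∈ Ioc N1 N2, mu d * S d := by
      simp only [hS, Finset.mul_sum]
      rw [Finset.sum_comm]
      apply Finset.sum_congr rfl
      intro d _
      apply Finset.sum_congr rfl
      intro h _
      ring
    rw [e1, ← Finset.sum_sub_distrib]
    apply Finset.sum_congr rfl
    intro d _
    simp only [hg]
    ring
  -- first part: exponential sums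
  set q : ℝ := (j : ℝ) ^ (-(1 / 4) : ℝ) with hq
  have hq0 : 0 < q := Real.rpow_pos_of_pos hjpos _
  have hfirst : |∑ h ∈ Icc 1 j, 1 / (Real.pi * h) *
          ∑ d ∈ Ioc N1 N2, mu d * Real.sin (2 * Real.pi * h * (X / d - c))| ≤
      21 * CM * D * (j : ℝ) ^ (-(1 / 5) : ℝ) := by
    have h1 : ∀ h ∈ Icc 1 j, |1 / (Real.pi * (h : ℝ)) *
          ∑ d ∈ Ioc N1 N2, mu d * Real.sin (2 * Real.pi * h * (X / d - c))| ≤
        1 / (Real.pi * h) * (CM * D * q) := by
      intro h hh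
      obtain ⟨hh1, hh2⟩ := Finset.mem_Icc.1 hh
      have hh1r : (1 : ℝ) ≤ h := by exact_mod_cast hh1
      have hh2r : (h : ℝ) ≤ j := by exact_mod_cast hh2
      have hpos : 0 < 1 / (Real.pi * (h : ℝ)) := by positivity
      rw [abs_mul, abs_of_pos hpos]
      apply mul_le_mul_of_nonneg_left _ hpos.le
      refine (MP_im N1 N2 X c h).trans ?_
      have hhX : 0 < h * X := by positivity
      refine hMU j hj1 D (h * X) N1 N2 hD hhX ?_ ?_ hN1 hN2
      · refine hDX.trans ?_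
        have : X ≤ h * X := by nlinarith
        nlinarith
      · have e3 : (2 : ℝ) ^ (3 * j) = 2 ^ j * 2 ^ (2 * j) := by rw [← pow_add]; congr 1; ring
        rw [e3, mul_assoc]
        exact mul_le_mul (hh2r.trans hj2) hXD hX.le (by positivity)
    refine (Finset.abs_sum_le_sum_abs _ _).trans ((Finset.sum_le_sum h1).trans ?_)
    rw [← Finset.sum_mul]
    have h2 := MP_harm j hj1
    have h3 : (j : ℝ) ^ ((1 / 20 : ℝ)) * q = (j : ℝ) ^ (-(1 / 5) : ℝ) := by
      rw [hq, ← Real.rpow_add hjpos]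
      norm_num
    calc (∑ h ∈ Icc 1 j, 1 / (Real.pi * (h : ℝ))) * (CM * D * q) ≤
        21 * (j : ℝ) ^ ((1 / 20 : ℝ)) * (CM * D * q) :=
          mul_le_mul_of_nonneg_right h2 (by positivity)
      _ = 21 * CM * D * ((j : ℝ) ^ ((1 / 20 : ℝ)) * q) := by ring
      _ = _ := by rw [h3]
  -- second part
  set p : ℝ := (j : ℝ) ^ (-(1 / 2) : ℝ) with hp
  set r : ℝ := (j : ℝ) ^ (-(1 / 5) : ℝ) with hr
  have hp0 : 0 < p := Real.rpow_pos_of_pos hjpos _
  have hr0 : 0 < r := Real.rpow_pos_of_pos hjpos _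
  have hpr : p ≤ r := Real.rpow_le_rpow_of_exponent_le hjr (by norm_num)
  have hpp : p * p = 1 / j := by
    rw [hp, ← Real.rpow_add hjpos]
    norm_num
    rw [Real.rpow_neg_one]
  have hjp : j * p * p = 1 := by
    rw [mul_assoc, hpp]; field_simp
  have hp2 : p ≤ 1 / 2 := by
    by_contra hcon
    push Not at hcon
    have : 1 < j * p * p := by nlinarith
    linarith
  have hsecond : |∑ d ∈ Ioc N1 N2, mu d * g d| ≤ 23 * CF * D * r := by
    classical
    set B := (Ioc N1 N2).filter (fun d : ℕ => nrm (X / d - c) ≤ p) with hB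
    have hcardB : (B.card : ℝ) ≤ 20 * p * D + X / D + 3 :=
      hNI X D c p N1 N2 hD1 hDX' hp0.le hp2 hN1 hN2
    have hcardI : ((Ioc N1 N2).card : ℝ) ≤ 2 * D := by
      rw [Nat.card_Ioc]
      rcases Nat.le_total N1 N2 with h | h
      · rw [Nat.cast_sub h]; linarith
      · rw [Nat.sub_eq_zero_of_le h]
        push_cast
        linarith
    have hpt : ∀ d ∈ Ioc N1 N2, |mu d * g d| ≤ (if d ∈ B then CF else 0) + CF * p := by
      intro d hd
      obtain ⟨hF1, hF2⟩ := hFS j (X / d - c) hj1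
      have hgd : |mu d * g d| ≤ |g d| := by
        rw [abs_mul]
        calc |mu d| * |g d| ≤ 1 * |g d| := mul_le_mul_of_nonneg_right (MP_abs_mu d) (abs_nonneg _)
          _ = |g d| := one_mul _
      refine hgd.trans ?_
      by_cases hdB : d ∈ B
      · rw [if_pos hdB]
        have : |g d| ≤ CF := hF1
        nlinarith
      · rw [if_neg hdB, zero_add]
        have hn : p < nrm (X / d - c) := by
          by_contra hc
          push Not at hc
          exact hdB (Finset.mem_filter.2 ⟨hd, hc⟩)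
        have h1 : |g d| * (j * nrm (X / d - c)) ≤ CF := hF2
        have h2 : |g d| * (j * p) ≤ CF := by
          refine le_trans ?_ h1
          apply mul_le_mul_of_nonneg_left _ (abs_nonneg _)
          exact mul_le_mul_of_nonneg_left hn.le hjpos.le
        calc |g d| = |g d| * (j * p) * p := by rw [mul_assoc, hjp, mul_one]
          _ ≤ CF * p := mul_le_mul_of_nonneg_right h2 hp0.le
    have hXD2 : X / D ≤ 2 ^ (2 * j) := by
      rw [div_le_iff₀ hDpos]; exact hXD
    have hlast : (2 : ℝ) ^ (2 * j) + 3 ≤ D * r := by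
      have h1 : (1 : ℝ) ≤ 2 ^ (2 * j) := one_le_pow₀ (by norm_num)
      have h2 : (2 : ℝ) ^ (2 * j) + 3 ≤ 2 ^ (2 * j + 2) := by
        rw [pow_add]; linarith
      have h3 : (1 : ℝ) / j ≤ r := by
        rw [one_div, ← Real.rpow_neg_one]
        exact Real.rpow_le_rpow_of_exponent_le hjr (by norm_num)
      have h4 : (1 : ℝ) / 2 ^ j ≤ 1 / j := one_div_le_one_div_of_le hjpos hj2
      have h5 : (2 : ℝ) ^ (2 * j + 2) ≤ 2 ^ (12 * j) * (1 / 2 ^ j) := by
        rw [mul_one_div, le_div_iff₀ (by positivity), ← pow_add]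
        exact pow_le_pow_right₀ (by norm_num) (by omega)
      calc (2 : ℝ) ^ (2 * j) + 3 ≤ 2 ^ (12 * j) * (1 / 2 ^ j) := h2.trans h5
        _ ≤ D * r := mul_le_mul hD (h4.trans h3) (by positivity) hDpos.le
    calc |∑ d ∈ Ioc N1 N2, mu d * g d| ≤ ∑ d ∈ Ioc N1 N2, ((if d ∈ B then CF else 0) + CF * p) :=
          (Finset.abs_sum_le_sum_abs _ _).trans (Finset.sum_le_sum hpt)
      _ = (B.card : ℝ) * CF + ((Ioc N1 N2).card : ℝ) * (CF * p) := by
          rw [Finset.sum_add_distrib, Finset.sum_const, nsmul_eq_mul, ← Finset.sum_filter,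
            Finset.sum_const, nsmul_eq_mul]
          congr 3
          rw [hB]
          congr 1
          ext d
          simp only [Finset.mem_filter]
          tauto
      _ ≤ (20 * p * D + X / D + 3) * CF + 2 * D * (CF * p) := by
          apply add_le_add
          · exact mul_le_mul_of_nonneg_right hcardB hCF.le
          · exact mul_le_mul_of_nonneg_right hcardI (by positivity)
      _ ≤ 23 * CF * D * r := by
          have h1 : p * D ≤ D * r := by nlinarith
          nlinarith [mul_le_mul_of_nonneg_left h1 hCF.le,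
            mul_le_mul_of_nonneg_left (hXD2.trans (by linarith : (2 : ℝ) ^ (2 * j) ≤ D * r - 3)) hCF.le]
  rw [hsplit]
  refine (abs_sub _ _).trans ?_
  calc _ ≤ 23 * CF * D * r + 21 * CM * D * r := add_le_add hsecond hfirst
    _ = _ := by ring

end AM

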